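import Pool.Agent.H27.TM.TargetsL
import Pool.Agent.H31.SW.Tools

/-!
# The twelfth moment of Hecke L-functions: families of smooth functions
-/

set_option autoImplicit false
set_option linter.unusedVariables false

open NumberField NumberField.InfinitePlace MeasureTheory Set Filter Complex
open scoped Topology

namespace Pool.Agent.H27.TM

open Pool.Agent.H29.DW (dg Rl lf)
open Pool.Agent.H31.SW

namespace GNaux

/-- the partial derivatives with respect to `z` -/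
theorem hd_z {O : Set (ℝ × ℝ × ℂ)} {g : (ℝ × ℝ × ℂ) × ℂ → ℂ} (hO : IsOpen O)
    (hg : ∀ n : ℕ, ContDiffOn ℝ n g (O ×ˢ univ)) {e : ℝ × ℝ × ℂ} (he : e ∈ O) (z : ℂ) :
    HD (fun z => g (e, z)) (fun z => fderiv ℝ g (e, z) (0, 1))
      (fun z => fderiv ℝ g (e, z) (0, I)) z := by
  have hq : (e, z) ∈ O ×ˢ (univ : Set ℂ) := ⟨he, mem_univ _⟩
  have h1 : DifferentiableAt ℝ g (e, z) :=
    ((hg 1).differentiableOn (by norm_num)).differentiableAt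
      ((hO.prod isOpen_univ).mem_nhds hq)
  have h2 : HasFDerivAt (fun z : ℂ => ((e, z) : (ℝ × ℝ × ℂ) × ℂ))
      ((0 : ℂ →L[ℝ] (ℝ × ℝ × ℂ)).prod (ContinuousLinearMap.id ℝ ℂ)) z :=
    (hasFDerivAt_const e z).prodMk (hasFDerivAt_id z)
  refine hd_iff (HasFDerivAt.comp z h1.hasFDerivAt h2) ?_ ?_
  · rfl
  · rfl

theorem vanish {O : Set (ℝ × ℝ × ℂ)} {g : (ℝ × ℝ × ℂ) × ℂ → ℂ} {w : ℝ × ℝ × ℂ → ℂ} {ρ : ℝ}
    (hO : IsOpen O) (hg : ∀ n : ℕ, ContDiffOn ℝ n g (O ×ˢ univ))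
    (hz : ∀ e ∈ O, ∀ z, ρ < ‖z - w e‖ → g (e, z) = 0) (d : ℂ) :
    ∀ e ∈ O, ∀ z, ρ < ‖z - w e‖ → fderiv ℝ g (e, z) (0, d) = 0 := by
  intro e he z h
  have hq : (e, z) ∈ O ×ˢ (univ : Set ℂ) := ⟨he, mem_univ _⟩
  have h1 : DifferentiableAt ℝ g (e, z) :=
    ((hg 1).differentiableOn (by norm_num)).differentiableAt
      ((hO.prod isOpen_univ).mem_nhds hq)
  have h2 : HasFDerivAt (fun z : ℂ => ((e, z) : (ℝ × ℝ × ℂ) × ℂ))
      ((0 : ℂ →L[ℝ] (ℝ × ℝ × ℂ)).prod (ContinuousLinearMap.id ℝ ℂ)) z :=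
    (hasFDerivAt_const e z).prodMk (hasFDerivAt_id z)
  have h3 := HasFDerivAt.comp z h1.hasFDerivAt h2
  have h4 : (g ∘ fun z : ℂ => ((e, z) : (ℝ × ℝ × ℂ) × ℂ)) =ᶠ[𝓝 z] fun _ => 0 := by
    have hopen : IsOpen {z : ℂ | ρ < ‖z - w e‖} := isOpen_lt continuous_const (by fun_prop)
    have hmem : z ∈ {z : ℂ | ρ < ‖z - w e‖} := h
    filter_upwards [hopen.mem_nhds hmem] with z' hz'
    exact hz e he z' hz'
  have h5 := (h3.congr_of_eventuallyEq h4.symm).unique (hasFDerivAt_const (0 : ℂ) z)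
  have h6 := congrArg (fun L : ℂ →L[ℝ] ℂ => L d) h5
  simpa using h6

theorem bound_z {O K₀ : Set (ℝ × ℝ × ℂ)} {g : (ℝ × ℝ × ℂ) × ℂ → ℂ} {w : ℝ × ℝ × ℂ → ℂ}
    {ρ R : ℝ} (hO : IsOpen O) (hK : IsCompact K₀) (hKO : K₀ ⊆ O)
    (hg : ∀ n : ℕ, ContDiffOn ℝ n g (O ×ˢ univ))
    (hz : ∀ e ∈ O, ∀ z, ρ < ‖z - w e‖ → g (e, z) = 0) (hw : ∀ e ∈ K₀, ‖w e‖ ≤ R) :
    ∃ C : ℝ, 0 ≤ C ∧ ∀ e ∈ K₀, ∀ z, ‖g (e, z)‖ ≤ ind (w e) ρ C z := by
  have hK2 : IsCompact (K₀ ×ˢ Metric.closedBall (0 : ℂ) (R + ρ)) :=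
    hK.prod (isCompact_closedBall _ _)
  have hsub : (K₀ ×ˢ Metric.closedBall (0 : ℂ) (R + ρ)) ⊆ O ×ˢ (univ : Set ℂ) :=
    fun q hq => ⟨hKO hq.1, mem_univ _⟩
  obtain ⟨C, hC⟩ := hK2.exists_bound_of_continuousOn ((hg 0).continuousOn.mono hsub)
  refine ⟨max C 0, le_max_right _ _, fun e he z => ?_⟩
  by_cases h : ‖z - w e‖ ≤ ρ
  · rw [ind_of_mem h]
    refine (hC (e, z) ⟨he, ?_⟩).trans (le_max_left _ _)
    rw [Metric.mem_closedBall, dist_eq_norm, sub_zero]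
    calc ‖z‖ = ‖w e + (z - w e)‖ := by congr 1; ring
      _ ≤ ‖w e‖ + ‖z - w e‖ := norm_add_le _ _
      _ ≤ R + ρ := add_le_add (hw e he) h
  · rw [ind_of_not_mem (not_le.1 h), hz e (hKO he) z (not_le.1 h), norm_zero]

end GNaux

open GNaux in
/-- (GN) bounds for the derivatives of families of smooth functions. -/
theorem pf_GN : M_GN := by
  intro O K₀ g w ρ R hO hK hKO hg hz hw N
  induction N generalizing g with
  | zero =>
    obtain ⟨C, hC, h⟩ := bound_z hO hK hKO hg hz hw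
    refine ⟨C, hC, fun e he => ⟨?_, fun z _ => h e he z⟩⟩
    exact fun z _ => (hd_z hO hg (hKO he) z).continuousAt.continuousWithinAt
  | succ n ih =>
    have hder : ∀ d : ℂ, ∀ n : ℕ, ContDiffOn ℝ n (fun q => fderiv ℝ g q (0, d))
        (O ×ˢ (univ : Set ℂ)) := by
      intro d n
      exact ((hg (n + 1)).fderiv_of_isOpen (m := n) (hO.prod isOpen_univ)
        (by push_cast; exact le_rfl)).clm_apply contDiffOn_const
    obtain ⟨C₀, hC₀, h0⟩ := bound_z hO hK hKO hg hz hw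
    obtain ⟨C₁, hC₁, h1⟩ := ih _ (hder 1) (vanish hO hg hz 1)
    obtain ⟨C₂, hC₂, h2⟩ := ih _ (hder I) (vanish hO hg hz I)
    refine ⟨max C₀ (max C₁ C₂), hC₀.trans (le_max_left _ _), fun e he => ?_⟩
    refine ⟨fun z _ => ?_, fun z => fderiv ℝ g (e, z) (0, 1),
      fun z => fderiv ℝ g (e, z) (0, I), fun z _ => hd_z hO hg (hKO he) z, ?_, ?_⟩
    · exact (h0 e he z).trans
        (ind_mono (le_max_left _ _) (hC₀.trans (le_max_left _ _)) le_rfl)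
    · exact DS.mono (h1 e he) ((le_max_left _ _).trans (le_max_right _ _))
        (hC₀.trans (le_max_left _ _)) le_rfl
    · exact DS.mono (h2 e he) ((le_max_right _ _).trans (le_max_right _ _))
        (hC₀.trans (le_max_left _ _)) le_rfl

end Pool.Agent.H27.TM
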