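import Pool.Agent.H27.TM.TargetsL
import Pool.Agent.H31.SW.Tools

/-!
# The twelfth moment of Hecke L-functions: the function `log((t + α) / (t - α))`
-/

set_option autoImplicit false
set_option linter.unusedVariables false

open NumberField NumberField.InfinitePlace MeasureTheory Set Filter Complex
open scoped Topology

namespace Pool.Agent.H27.TM

open Pool.Agent.H29.DW (dg Rl lf)
open Pool.Agent.H31.SW

namespace LOaux

theorem log_div_of_re_pos {x y : ℂ} (hx : 0 < x.re) (hy : 0 < y.re) :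
    Complex.log (x / y) = Complex.log x - Complex.log y := by
  have hx0 : x ≠ 0 := by
    rintro rfl
    simp at hx
  have hy0 : y ≠ 0 := by
    rintro rfl
    simp at hy
  have h1 : |x.arg| < Real.pi / 2 := Complex.abs_arg_lt_pi_div_two_iff.2 (Or.inl hx)
  have h2 : |y.arg| < Real.pi / 2 := Complex.abs_arg_lt_pi_div_two_iff.2 (Or.inl hy)
  have h3 := abs_lt.1 h1
  have h4 := abs_lt.1 h2
  have h5 : x / y = cexp (Complex.log x - Complex.log y) := by
    rw [Complex.exp_sub, Complex.exp_log hx0, Complex.exp_log hy0]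
  rw [h5, Complex.log_exp]
  · rw [Complex.sub_im, Complex.log_im, Complex.log_im]
    linarith [h3.1, h4.2]
  · rw [Complex.sub_im, Complex.log_im, Complex.log_im]
    linarith [h3.2, h4.1]

theorem re_pos_of_near {x : ℂ} (h : ‖x - 1‖ < 1) : 0 < x.re := by
  have h1 := (Complex.abs_re_le_norm (x - 1)).trans_lt h
  rw [Complex.sub_re, Complex.one_re] at h1
  linarith [(abs_lt.1 h1).1]

theorem quot_near {α : ℝ} {t : ℂ} (ha : 0 < α) (h1 : α ≤ 1 / 10000) (ht : 1 / 4 ≤ ‖t‖) :
    t - α ≠ 0 ∧ t + α ≠ 0 ∧ ‖(t + α) / (t - α) - 1‖ < 1 := by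
  have hα : ‖(α : ℂ)‖ = α := by
    rw [Complex.norm_real, Real.norm_eq_abs, abs_of_pos ha]
  have h2 : 1 / 4 - 1 / 10000 ≤ ‖t - α‖ := by
    have := norm_sub_norm_le t (α : ℂ)
    rw [hα] at this
    linarith
  have h3 : 1 / 4 - 1 / 10000 ≤ ‖t + α‖ := by
    have := norm_sub_norm_le t (-(α : ℂ))
    rw [norm_neg, hα, sub_neg_eq_add] at this
    linarith
  have h4 : t - α ≠ 0 := by
    intro h
    rw [h, norm_zero] at h2
    norm_num at h2
  have h5 : t + α ≠ 0 := by
    intro h
    rw [h, norm_zero] at h3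
    norm_num at h3
  refine ⟨h4, h5, ?_⟩
  have h6 : (t + α) / (t - α) - 1 = 2 * α / (t - α) := by
    field_simp
    ring
  rw [h6, norm_div, norm_mul, hα, div_lt_one (by linarith)]
  have h7 : ‖(2 : ℂ)‖ = 2 := by simp
  rw [h7]
  linarith

theorem lo_deriv {α : ℝ} {t : ℂ} (ha : 0 < α) (h1 : α ≤ 1 / 10000) (ht : 1 / 4 ≤ ‖t‖) :
    HasDerivAt (lo α) (-(2 * α) / (t ^ 2 - α ^ 2)) t := by
  obtain ⟨h2, h3, h4⟩ := quot_near ha h1 ht
  have h5 : HasDerivAt (fun t : ℂ => (t + α) / (t - α))
      ((1 * (t - α) - (t + α) * 1) / (t - α) ^ 2) t :=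
    ((hasDerivAt_id t).add_const (α : ℂ)).div ((hasDerivAt_id t).sub_const (α : ℂ)) h2
  have h6 : (t + α) / (t - α) ∈ slitPlane := Or.inl (re_pos_of_near h4)
  have h7 := h5.clog h6
  have h8 : (1 * (t - α) - (t + α) * 1) / (t - α) ^ 2 / ((t + α) / (t - α)) =
      -(2 * α) / (t ^ 2 - α ^ 2) := by
    have h9 : t ^ 2 - (α : ℂ) ^ 2 = (t - α) * (t + α) := by ring
    rw [h9]
    field_simp
    ring
  rw [h8] at h7
  exact h7

theorem lo_real {α : ℝ} {t : ℂ} (ha : 0 < α) (h1 : α ≤ 1 / 10000) (ht : 1 / 4 ≤ ‖t‖) (r : Bool)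
    (hr : Rl r t) : Rl r (lo α t) := by
  intro h
  have h2 : t.im = 0 := hr h
  have h3 : t = ((t.re : ℝ) : ℂ) := by apply Complex.ext <;> simp [h2]
  have h4 : 1 / 4 ≤ |t.re| := by
    rw [h3, Complex.norm_real, Real.norm_eq_abs] at ht
    exact ht
  have h5 : (t + α) / (t - α) = (((t.re + α) / (t.re - α) : ℝ) : ℂ) := by
    rw [h3]
    push_cast
    simp
  have h6 : 0 ≤ (t.re + α) / (t.re - α) := by
    rcases le_abs.1 h4 with h | h
    · exact div_nonneg (by linarith) (by linarith)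
    · exact div_nonneg_of_nonpos (by linarith) (by linarith)
  show (Complex.log ((t + α) / (t - α))).im = 0
  rw [h5, Complex.log_im, Complex.arg_ofReal_of_nonneg h6]

theorem lo_sub {α : ℝ} {a t : ℂ} (hα : 0 < α) (h1 : α ≤ 1 / 10000) (ha : ‖a‖ ≤ 4)
    (h : ‖a * t - 1‖ ≤ 1 / 1000) :
    Complex.log (a * t + α * a) - Complex.log (a * t - α * a) = lo α t := by
  have hαn : ‖(α : ℂ)‖ = α := by
    rw [Complex.norm_real, Real.norm_eq_abs, abs_of_pos hα]
  have ha0 : a ≠ 0 := by
    rintro rfl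
    norm_num at h
  have h2 : ‖(α : ℂ) * a‖ ≤ 4 / 10000 := by
    rw [norm_mul, hαn]
    calc α * ‖a‖ ≤ 1 / 10000 * 4 := mul_le_mul h1 ha (norm_nonneg _) (by norm_num)
      _ = 4 / 10000 := by norm_num
  have h3 : ‖a * t + α * a - 1‖ < 1 := by
    have : a * t + α * a - 1 = (a * t - 1) + α * a := by ring
    rw [this]
    refine (norm_add_le _ _).trans_lt ?_
    linarith
  have h4 : ‖a * t - α * a - 1‖ < 1 := by
    have : a * t - α * a - 1 = (a * t - 1) - α * a := by ring
    rw [this]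
    refine (norm_sub_le _ _).trans_lt ?_
    linarith
  rw [← log_div_of_re_pos (re_pos_of_near h3) (re_pos_of_near h4)]
  unfold lo
  congr 1
  have h5 : a * t + α * a = a * (t + α) := by ring
  have h6 : a * t - α * a = a * (t - α) := by ring
  rw [h5, h6, mul_div_mul_left _ _ ha0]

/-- half of `log (1 + z) - log (1 - z)` -/
noncomputable def fL (z : ℂ) : ℂ := (Complex.log (1 + z) - Complex.log (1 - z)) / 2

theorem fL_diff : DifferentiableOn ℂ fL (Metric.ball 0 (1 / 10)) := by
  intro z hz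
  rw [Metric.mem_ball, dist_eq_norm, sub_zero] at hz
  have h1 : (1 + z) ∈ slitPlane := by
    refine Or.inl (re_pos_of_near ?_)
    have : 1 + z - 1 = z := by ring
    rw [this]
    linarith
  have h2 : (1 - z) ∈ slitPlane := by
    refine Or.inl (re_pos_of_near ?_)
    have : 1 - z - 1 = -z := by ring
    rw [this, norm_neg]
    linarith
  refine DifferentiableAt.differentiableWithinAt ?_
  unfold fL
  exact (((differentiableAt_id.const_add 1).clog h1).sub
    ((differentiableAt_id.const_sub 1).clog h2)).div_const 2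

end LOaux

open LOaux in
/-- (LO) the function `log((t + α) / (t - α))`. -/
theorem pf_LO : M_LO := by
  refine ⟨fun α t ha h1 ht => ⟨lo_deriv ha h1 ht, fun r hr => lo_real ha h1 ht r hr⟩,
    fun α a t hα h1 ha h => lo_sub hα h1 ha h, dslope fL 0, ?_, ?_⟩
  · intro n
    have h1 : DifferentiableOn ℂ (dslope fL 0) (Metric.ball 0 (1 / 10)) :=
      (Complex.differentiableOn_dslope (Metric.ball_mem_nhds 0 (by norm_num))).2 fL_diff
    exact (h1.contDiffOn Metric.isOpen_ball).restrict_scalars ℝ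
  · intro α t ht h
    have htn : 0 < ‖t‖ := norm_pos_iff.2 ht
    by_cases hα : α = 0
    · subst hα
      unfold lo
      simp [ht]
    have hα' : (α : ℂ) ≠ 0 := by exact_mod_cast hα
    have hz : ‖(α : ℂ) / t‖ < 1 / 10 := by
      rw [norm_div, Complex.norm_real, Real.norm_eq_abs, div_lt_iff₀ htn]
      linarith
    have h0 : (α : ℂ) / t ≠ 0 := div_ne_zero hα' ht
    have h1 : ‖1 + (α : ℂ) / t - 1‖ < 1 := by
      have : 1 + (α : ℂ) / t - 1 = α / t := by ring
      rw [this]
      linarith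
    have h2 : ‖1 - (α : ℂ) / t - 1‖ < 1 := by
      have : 1 - (α : ℂ) / t - 1 = -(α / t) := by ring
      rw [this, norm_neg]
      linarith
    have h3 : lo α t = Complex.log (1 + α / t) - Complex.log (1 - α / t) := by
      rw [← log_div_of_re_pos (re_pos_of_near h1) (re_pos_of_near h2)]
      unfold lo
      congr 1
      have h4 : t + α = t * (1 + α / t) := by field_simp
      have h5 : t - α = t * (1 - α / t) := by field_simp
      rw [h4, h5, mul_div_mul_left _ _ ht]
    rw [h3, dslope_of_ne _ h0, slope_def_field]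
    have h6 : fL 0 = 0 := by simp [fL]
    rw [h6]
    unfold fL
    generalize Complex.log (1 + α / t) = A
    generalize Complex.log (1 - α / t) = B
    have h7 : (2 : ℂ) * α / t = 2 * (α / t) := by ring
    rw [h7, sub_zero, sub_zero]
    clear h7 h6 h3 h1 h2 hz
    generalize (α : ℂ) / t = z at h0 ⊢
    rw [mul_assoc, mul_div_cancel₀ _ h0]
    ring

end Pool.Agent.H27.TM
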